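import Mathlib

set_option autoImplicit false

/-! # Lattices in `ℚ^ι` (for helper7, MP_76db9d_al) -/

namespace Pool.Agent.Helper43.Comm

/-- The image of a homomorphism into `ℚ^ι` with bounded denominators has a `ℤ`-basis
`φ (ε k)`, whose coordinate functionals extend to `ℚ^ι`. -/
theorem lattice {H ι : Type} [Group H] [Fintype ι] (φ : H →* Multiplicative (ι → ℚ)) (D : ℕ)
    (hD : 0 < D)
    (hφ : ∀ h k, ∃ z : ℤ, (D : ℚ) * (Multiplicative.toAdd (φ h)) k = z) :
    ∃ (s : ℕ) (ε : Fin s → H) (L : Fin s → (ι → ℚ) →ₗ[ℚ] ℚ), ∀ h : H,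
      (∀ k, ∃ z : ℤ, L k (Multiplicative.toAdd (φ h)) = z) ∧
      Multiplicative.toAdd (φ h) =
        ∑ k, L k (Multiplicative.toAdd (φ h)) • Multiplicative.toAdd (φ (ε k)) := by
  classical
  -- the ambient lattice
  let M : Submodule ℤ (ι → ℚ) := Submodule.span ℤ
    (Set.range fun i : ι => (Pi.single i ((D : ℚ)⁻¹) : ι → ℚ))
  let Λ : Submodule ℤ (ι → ℚ) :=
    { carrier := {v | ∃ h, Multiplicative.toAdd (φ h) = v}
      zero_mem' := ⟨1, by simp⟩
      add_mem' := by
        rintro _ _ ⟨a, rfl⟩ ⟨b, rfl⟩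
        exact ⟨a * b, by simp⟩
      smul_mem' := by
        rintro z _ ⟨a, rfl⟩
        exact ⟨a ^ z, by simp⟩ }
  have hD0 : (D : ℚ) ≠ 0 := by positivity
  have hle : Λ ≤ M := by
    rintro _ ⟨h, rfl⟩
    choose z hz using fun k => hφ h k
    have : Multiplicative.toAdd (φ h) = ∑ i, z i • (Pi.single i ((D : ℚ)⁻¹) : ι → ℚ) := by
      ext k
      rw [Finset.sum_apply, Finset.sum_eq_single k]
      · simp only [Pi.smul_apply, Pi.single_eq_same, zsmul_eq_mul]
        rw [← hz k]; field_simp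
      · intro i _ hik
        simp [Pi.single_eq_of_ne (Ne.symm hik)]
      · intro hk; exact absurd (Finset.mem_univ k) hk
    rw [this]
    refine Submodule.sum_mem _ fun i _ => Submodule.smul_mem _ _ (Submodule.subset_span ⟨i, rfl⟩)
  have hMfg : M.FG := Submodule.fg_span (Set.finite_range _)
  have : Module.Finite ℤ M := Module.Finite.iff_fg.mpr hMfg
  have hN : IsNoetherian ℤ M := isNoetherian_of_isNoetherianRing_of_finite ℤ M
  have hΛfg : Λ.FG := by
    have := isNoetherian_submodule.mp hN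
    exact this Λ hle
  have : Module.Finite ℤ Λ := Module.Finite.iff_fg.mpr hΛfg
  have : Module.Free ℤ Λ := inferInstance
  let b0 := Module.Free.chooseBasis ℤ Λ
  let b := b0.reindex (Fintype.equivFin _)
  have hli : LinearIndependent ℤ (fun k => ((b k : Λ) : ι → ℚ)) := by
    have := b.linearIndependent
    exact this.map' Λ.subtype (Submodule.ker_subtype _)
  have hliQ : LinearIndependent ℚ (fun k => ((b k : Λ) : ι → ℚ)) :=
    (LinearIndependent.iff_fractionRing ℤ ℚ).mp hli
  choose ε hε using fun k => (b k).2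
  let T : (Fin _ → ℚ) →ₗ[ℚ] (ι → ℚ) :=
    Fintype.linearCombination ℚ (fun k => ((b k : Λ) : ι → ℚ))
  have hT : LinearMap.ker T = ⊥ := by
    rw [LinearMap.ker_eq_bot']
    intro c hc
    rw [Fintype.linearCombination_apply] at hc
    funext k
    exact Fintype.linearIndependent_iff.mp hliQ c hc k
  obtain ⟨g, hg⟩ := LinearMap.exists_leftInverse_of_injective T hT
  refine ⟨_, ε, fun k => (LinearMap.proj k).comp g, fun h => ?_⟩
  have hmem : Multiplicative.toAdd (φ h) ∈ Λ := ⟨h, rfl⟩
  obtain ⟨z, hz⟩ : ∃ z : Fin _ → ℤ, T (fun k => ((z k : ℤ) : ℚ)) = Multiplicative.toAdd (φ h) := by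
    refine ⟨fun k => b.repr ⟨_, hmem⟩ k, ?_⟩
    have hrep := b.sum_repr ⟨_, hmem⟩
    have := congrArg (Subtype.val) hrep
    simp only [Submodule.coe_sum, Submodule.coe_smul] at this
    rw [Fintype.linearCombination_apply]
    refine Eq.trans (Finset.sum_congr rfl fun k _ => ?_) this
    ext i
    simp
  have hL : g (Multiplicative.toAdd (φ h)) = fun k => ((z k : ℤ) : ℚ) := by
    rw [← hz]
    exact LinearMap.congr_fun hg _
  refine ⟨fun k => ⟨z k, ?_⟩, ?_⟩
  · simp only [LinearMap.comp_apply, LinearMap.proj_apply, hL]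
  · simp only [LinearMap.comp_apply, LinearMap.proj_apply, hL, hε]
    rw [← hz, Fintype.linearCombination_apply]

end Pool.Agent.Helper43.Comm
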