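import Mathlib
import Pool.Agent.Helper7.Comm.Brackets
import Pool.Agent.Helper49.MagnusWeighted
import Pool.Agent.Helper43.Comm.Lattice

set_option autoImplicit false

/-! # Short words (for helper7, MP_76db9d_al) -/

namespace Pool.Agent.Helper43.Comm

open Pool.Agent.Helper7.Comm Pool.Agent.Helper7.Comm.NC
open Pool.Agent.Helper49.MagnusW
open scoped commutatorElement

theorem wt_const_one {X : Type*} (w : List X) : wt (fun _ => 1) w = w.length := by simp [wt]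

theorem linear_bound {ι : Type} [Fintype ι] (L : (ι → ℚ) →ₗ[ℚ] ℚ) :
    ∃ M : ℕ, ∀ (v : ι → ℚ) (A : ℚ), (∀ i, |v i| ≤ A) → 0 ≤ A → |L v| ≤ M * A := by
  classical
  obtain ⟨M, hM⟩ := exists_nat_ge (∑ i, |L (fun j => if i = j then 1 else 0)|)
  refine ⟨M, fun v A hv hA => ?_⟩
  rw [LinearMap.pi_apply_eq_sum_univ L v]
  calc |∑ i, v i • L (fun j => if i = j then 1 else 0)|
      ≤ ∑ i, |v i • L (fun j => if i = j then 1 else 0)| := Finset.abs_sum_le_sum_abs _ _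
    _ ≤ ∑ i, A * |L (fun j => if i = j then 1 else 0)| := Finset.sum_le_sum fun i _ => by
        rw [smul_eq_mul, abs_mul]; exact mul_le_mul_of_nonneg_right (hv i) (abs_nonneg _)
    _ = (∑ i, |L (fun j => if i = j then 1 else 0)|) * A := by rw [← Finset.mul_sum, mul_comm]
    _ ≤ M * A := mul_le_mul_of_nonneg_right hM hA

theorem norm_pow_le {α : Type} [DecidableEq α] (x : FreeGroup α) (n : ℕ) :
    (x ^ n).norm ≤ n * x.norm := by
  induction n with
  | zero => simp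
  | succ n ih =>
    rw [pow_succ, Nat.succ_mul]
    exact (FreeGroup.norm_mul_le _ _).trans (Nat.add_le_add_right ih _)

theorem norm_zpow_le {α : Type} [DecidableEq α] (x : FreeGroup α) (z : ℤ) :
    (x ^ z).norm ≤ z.natAbs * x.norm := by
  obtain ⟨n, rfl | rfl⟩ := z.eq_nat_or_neg
  · simpa using norm_pow_le x n
  · simpa using norm_pow_le x n

theorem norm_prod_le {α : Type} [DecidableEq α] (l : List (FreeGroup α)) :
    l.prod.norm ≤ (l.map FreeGroup.norm).sum := by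
  induction l with
  | nil => simp
  | cons x l ih =>
    rw [List.prod_cons, List.map_cons, List.sum_cons]
    exact (FreeGroup.norm_mul_le _ _).trans (Nat.add_le_add_left ih _)

/-- Polynomial bounds compose. -/
theorem poly_bound (C₀ C₁ K : ℕ) : ∃ C : ℕ, ∀ B : ℕ,
    C₀ * (B + 1) ^ C₀ + K * ((C₀ * (B + 1) ^ C₀ + 1) ^ C₁ * B) ≤ C * (B + 1) ^ C := by
  refine ⟨C₀ + K * (C₀ + 1) ^ C₁ + (C₀ * C₁ + 1), fun B => ?_⟩
  have h1 : C₀ * (B + 1) ^ C₀ + 1 ≤ (C₀ + 1) * (B + 1) ^ C₀ := by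
    have : 1 ≤ (B + 1) ^ C₀ := Nat.one_le_pow _ _ (Nat.succ_pos _)
    rw [Nat.succ_mul]; omega
  have h2 : (C₀ * (B + 1) ^ C₀ + 1) ^ C₁ * B ≤ (C₀ + 1) ^ C₁ * (B + 1) ^ (C₀ * C₁ + 1) := by
    calc (C₀ * (B + 1) ^ C₀ + 1) ^ C₁ * B ≤ ((C₀ + 1) * (B + 1) ^ C₀) ^ C₁ * (B + 1) :=
          Nat.mul_le_mul (Nat.pow_le_pow_left h1 _) (Nat.le_succ _)
      _ = (C₀ + 1) ^ C₁ * (B + 1) ^ (C₀ * C₁ + 1) := by
          rw [mul_pow, ← pow_mul, pow_succ, mul_assoc]
  set C := C₀ + K * (C₀ + 1) ^ C₁ + (C₀ * C₁ + 1) with hC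
  have h3 : (B + 1) ^ C₀ ≤ (B + 1) ^ C := Nat.pow_le_pow_right (Nat.succ_pos _) (by omega)
  have h4 : (B + 1) ^ (C₀ * C₁ + 1) ≤ (B + 1) ^ C :=
    Nat.pow_le_pow_right (Nat.succ_pos _) (by omega)
  calc C₀ * (B + 1) ^ C₀ + K * ((C₀ * (B + 1) ^ C₀ + 1) ^ C₁ * B)
      ≤ C₀ * (B + 1) ^ C + K * ((C₀ + 1) ^ C₁ * (B + 1) ^ C) :=
        Nat.add_le_add (Nat.mul_le_mul_left _ h3)
          (Nat.mul_le_mul_left _ (h2.trans (Nat.mul_le_mul_left _ h4)))
    _ = (C₀ + K * (C₀ + 1) ^ C₁) * (B + 1) ^ C := by ring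
    _ ≤ C * (B + 1) ^ C := Nat.mul_le_mul_right _ (by omega)

section

variable {r : ℕ} (E : FreeGroup (Fin r) →* (NC (Fin r) ℚ)ˣ)

/-- The leading coefficients of an element of the `(c+1)`-st subgroup, as a homomorphism. -/
def lead (c : ℕ) : ↥(ordSub (fun _ => 1) E (c + 1)) →* Multiplicative ((Fin (c + 1) → Fin r) → ℚ) where
  toFun h := Multiplicative.ofAdd fun u => ((E h.1 : (NC (Fin r) ℚ)ˣ) : NC (Fin r) ℚ) (List.ofFn u)
  map_one' := by
    rw [← ofAdd_zero]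
    congr 1
    funext u
    simp [List.ofFn_succ]
  map_mul' a b := by
    rw [← ofAdd_add]
    congr 1
    funext u
    have ha : OrdGE (fun _ => 1) (c + 1) (((E a.1 : (NC (Fin r) ℚ)ˣ) : NC (Fin r) ℚ) - 1) := a.2
    have hb : OrdGE (fun _ => 1) (c + 1) (((E b.1 : (NC (Fin r) ℚ)ˣ) : NC (Fin r) ℚ) - 1) := b.2
    have hab := ha.mul hb (List.ofFn u) (by rw [wt_const_one, List.length_ofFn]; omega)
    have e : (((E (a.1 * b.1) : (NC (Fin r) ℚ)ˣ) : NC (Fin r) ℚ)) =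
        (((E a.1 : (NC (Fin r) ℚ)ˣ) : NC (Fin r) ℚ) - 1) *
          (((E b.1 : (NC (Fin r) ℚ)ˣ) : NC (Fin r) ℚ) - 1) +
          ((E a.1 : (NC (Fin r) ℚ)ˣ) : NC (Fin r) ℚ) +
          ((E b.1 : (NC (Fin r) ℚ)ˣ) : NC (Fin r) ℚ) - 1 := by
      rw [map_mul, Units.val_mul]; noncomm_ring
    change ((E (a.1 * b.1) : (NC (Fin r) ℚ)ˣ) : NC (Fin r) ℚ) (List.ofFn u) =
      ((E a.1 : (NC (Fin r) ℚ)ˣ) : NC (Fin r) ℚ) (List.ofFn u) +
        ((E b.1 : (NC (Fin r) ℚ)ˣ) : NC (Fin r) ℚ) (List.ofFn u)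
    rw [e, NC.sub_apply, NC.add_apply, NC.add_apply, hab]
    rw [List.ofFn_succ, NC.one_cons]
    ring

theorem lead_apply (c : ℕ) (h : ↥(ordSub (fun _ => 1) E (c + 1))) (u : Fin (c + 1) → Fin r) :
    Multiplicative.toAdd (lead E c h) u =
      ((E h.1 : (NC (Fin r) ℚ)ˣ) : NC (Fin r) ℚ) (List.ofFn u) := rfl

theorem ordGE_succ_of_lead (c : ℕ) (h : ↥(ordSub (fun _ => 1) E (c + 1)))
    (h0 : Multiplicative.toAdd (lead E c h) = 0) :
    OrdGE (fun _ => 1) (c + 1 + 1) (((E h.1 : (NC (Fin r) ℚ)ˣ) : NC (Fin r) ℚ) - 1) := by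
  intro w hw
  rw [wt_const_one] at hw
  rcases Nat.lt_or_ge w.length (c + 1) with hlt | hge
  · exact h.2 w (by rw [wt_const_one]; exact hlt)
  · have hl : w.length = c + 1 := by omega
    have hw2 : w = List.ofFn (fun i : Fin (c + 1) => w.get (Fin.cast hl.symm i)) := by
      apply List.ext_get
      · simp [hl]
      · intro n h1 h2
        simp only [List.get_eq_getElem, List.getElem_ofFn, Fin.val_cast]
    have h1 := congrFun h0 (fun i : Fin (c + 1) => w.get (Fin.cast hl.symm i))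
    rw [lead_apply, ← hw2] at h1
    rw [NC.sub_apply, h1]
    cases w with
    | nil => simp at hl
    | cons a w => simp

end

theorem short_word (r c : ℕ) (E : FreeGroup (Fin r) →* (NC (Fin r) ℚ)ˣ)
    (hnil : ∀ g, ((E g : (NC (Fin r) ℚ)ˣ) : NC (Fin r) ℚ) [] = 1)
    (hint : ∀ g (w : List (Fin r)), ∃ z : ℤ,
      ((w.length.factorial : ℕ) : ℚ) * ((E g : (NC (Fin r) ℚ)ˣ) : NC (Fin r) ℚ) w = z)
    (hgrow : ∀ c : ℕ, ∃ C : ℕ, ∀ (W : List (Fin r × Bool)) (w : List (Fin r)), w.length ≤ c →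
        |((E (FreeGroup.mk W) : (NC (Fin r) ℚ)ˣ) : NC (Fin r) ℚ) w| ≤ C * ((W.length : ℚ) + 1) ^ C) :
    ∃ C : ℕ, ∀ (g : FreeGroup (Fin r)) (B : ℕ),
      (∀ w : List (Fin r), w.length ≤ c → |((E g : (NC (Fin r) ℚ)ˣ) : NC (Fin r) ℚ) w| ≤ B) →
      ∃ W : List (Fin r × Bool), W.length ≤ C * (B + 1) ^ C ∧
        OrdGE (fun _ => 1) (c + 1)
          (((E ((FreeGroup.mk W)⁻¹ * g) : (NC (Fin r) ℚ)ˣ) : NC (Fin r) ℚ) - 1) := by
  induction c with
  | zero =>
    refine ⟨0, fun g B _ => ⟨[], by simp, fun w hw => ?_⟩⟩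
    rw [wt_const_one] at hw
    have : w = [] := List.eq_nil_of_length_eq_zero (by omega)
    subst this
    rw [NC.sub_apply, hnil, NC.one_nil, sub_self]
  | succ c ih =>
    obtain ⟨C₀, hC₀⟩ := ih
    obtain ⟨C₁, hC₁⟩ := hgrow (c + 1)
    obtain ⟨s, ε, L, hL⟩ := lattice (lead E c) (c + 1).factorial (Nat.factorial_pos _)
      (fun h k => by
        obtain ⟨z, hz⟩ := hint h.1 (List.ofFn k)
        rw [List.length_ofFn] at hz
        exact ⟨z, hz⟩)
    choose M hM using fun k => linear_bound (L k)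
    obtain ⟨C, hC⟩ := poly_bound C₀ C₁ ((∑ k, M k * (ε k).1.norm) * ((c + 2) * C₁))
    refine ⟨C, fun g B hB => ?_⟩
    obtain ⟨W₀, hW₀, hord⟩ := hC₀ g B (fun w hw => hB w (by omega))
    set g' : ↥(ordSub (fun _ => 1) E (c + 1)) := ⟨(FreeGroup.mk W₀)⁻¹ * g, hord⟩ with hg'
    choose z hz using (hL g').1
    -- the bound for the leading coefficients
    set A : ℚ := (c + 2) * (C₁ * ((W₀.length : ℚ) + 1) ^ C₁ * B) with hA
    have hA0 : 0 ≤ A := by positivity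
    have hlead : ∀ u, |Multiplicative.toAdd (lead E c g') u| ≤ A := by
      intro u
      rw [lead_apply, hg', map_mul, Units.val_mul, NC.mul_apply]
      refine (Finset.abs_sum_le_sum_abs _ _).trans ?_
      refine (Finset.sum_le_card_nsmul _ _ (C₁ * ((W₀.length : ℚ) + 1) ^ C₁ * B) ?_).trans ?_
      · intro i hi
        rw [abs_mul]
        refine mul_le_mul ?_ ?_ (abs_nonneg _) (by positivity)
        · rw [FreeGroup.inv_mk]
          have := hC₁ (FreeGroup.invRev W₀) ((List.ofFn u).take i) (by simp)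
          rwa [FreeGroup.invRev_length] at this
        · exact hB _ (by simp)
      · rw [Finset.card_range, List.length_ofFn, nsmul_eq_mul, hA]
        push_cast
        ring_nf
        exact le_rfl
    have hzb : ∀ k, ((z k).natAbs : ℚ) ≤ M k * A := by
      intro k
      have := hM k _ A hlead hA0
      rw [hz k] at this
      rwa [Nat.cast_natAbs, Int.cast_abs]
    -- the correction
    set P : ↥(ordSub (fun _ => 1) E (c + 1)) := (List.ofFn fun k => ε k ^ z k).prod with hP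
    have hPn : ((P.1.norm : ℕ) : ℚ) ≤ ∑ k, (M k * A) * (ε k).1.norm := by
      have h1 : P.1 = (List.ofFn fun k => (ε k).1 ^ z k).prod := by
        rw [hP, ← Subgroup.coe_subtype, map_list_prod, List.map_ofFn]
        rfl
      have h2 : P.1.norm ≤ ∑ k, (z k).natAbs * (ε k).1.norm := by
        rw [h1]
        refine (norm_prod_le _).trans ?_
        rw [List.map_ofFn, List.sum_ofFn]
        exact Finset.sum_le_sum fun k _ => norm_zpow_le _ _
      calc ((P.1.norm : ℕ) : ℚ) ≤ ((∑ k, (z k).natAbs * (ε k).1.norm : ℕ) : ℚ) := by exact_mod_cast h2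
        _ = ∑ k, ((z k).natAbs : ℚ) * (ε k).1.norm := by push_cast; rfl
        _ ≤ _ := Finset.sum_le_sum fun k _ => mul_le_mul_of_nonneg_right (hzb k) (by positivity)
    have hleadP : Multiplicative.toAdd (lead E c P) = Multiplicative.toAdd (lead E c g') := by
      rw [(hL g').2, hP, map_list_prod, List.map_ofFn, List.prod_ofFn, toAdd_prod]
      refine Finset.sum_congr rfl fun k _ => ?_
      rw [hz k, Function.comp_apply, map_zpow, toAdd_zpow]
      ext u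
      simp
    refine ⟨(FreeGroup.mk W₀ * P.1).toWord, ?_, ?_⟩
    · have h1 : (FreeGroup.mk W₀ * P.1).toWord.length ≤ W₀.length + P.1.norm :=
        (FreeGroup.norm_mul_le _ _).trans (Nat.add_le_add_right FreeGroup.norm_mk_le _)
      refine h1.trans (le_trans ?_ (hC B))
      refine Nat.add_le_add hW₀ ?_
      have h2 : ((P.1.norm : ℕ) : ℚ) ≤ (((∑ k, M k * (ε k).1.norm) * ((c + 2) * C₁) *
          ((C₀ * (B + 1) ^ C₀ + 1) ^ C₁ * B) : ℕ) : ℚ) := by
        refine hPn.trans ?_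
        have h3 : ((W₀.length : ℚ) + 1) ^ C₁ ≤ ((C₀ : ℚ) * (B + 1) ^ C₀ + 1) ^ C₁ := by
          have : (W₀.length : ℚ) ≤ (C₀ : ℚ) * (B + 1) ^ C₀ := by exact_mod_cast hW₀
          gcongr
        have h4 : A ≤ (c + 2) * (C₁ * ((C₀ : ℚ) * (B + 1) ^ C₀ + 1) ^ C₁ * B) := by
          rw [hA]; gcongr
        push_cast
        calc ∑ k, (M k * A) * ((ε k).1.norm : ℚ) = (∑ k, (M k : ℚ) * ((ε k).1.norm : ℚ)) * A := by
              rw [Finset.sum_mul]
              exact Finset.sum_congr rfl fun k _ => by ring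
          _ ≤ (∑ k, (M k : ℚ) * ((ε k).1.norm : ℚ)) *
              ((c + 2) * (C₁ * ((C₀ : ℚ) * (B + 1) ^ C₀ + 1) ^ C₁ * B)) := by
              gcongr
          _ = _ := by ring
      exact_mod_cast h2
    · rw [FreeGroup.mk_toWord]
      have e : (FreeGroup.mk W₀ * P.1)⁻¹ * g = (P⁻¹ * g' : ↥(ordSub (fun _ => 1) E (c + 1))).1 := by
        rw [hg', Subgroup.coe_mul, Subgroup.coe_inv, mul_inv_rev, mul_assoc]
      rw [e]
      refine ordGE_succ_of_lead E c _ ?_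
      rw [map_mul, map_inv, toAdd_mul, toAdd_inv, hleadP, neg_add_cancel]

end Pool.Agent.Helper43.Comm
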